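import Pool.Agent.H.MP_431f4e_gt.Abs
import Pool.Agent.H.MP_fcccf2_gt.Low
import Pool.Agent.H.MP_fcccf2_gt.Two

namespace Pool.Agent.Results.MP_fcccf2_gt.DiscSegment

open Pool.Agent.H.MP_431f4e_gt (gh_le gh_fun)
open Pool.Agent.H.MP_fcccf2_gt

theorem norm_one_dim (x : EuclideanSpace ℝ (Fin 1)) : ‖x‖ = |x 0| := by
  rw [EuclideanSpace.norm_eq]
  simp [Real.sqrt_sq_eq_abs]

theorem result :
    GromovHausdorff.ghDist (Metric.closedBall (0 : EuclideanSpace ℝ (Fin 2)) 1)
      (Metric.closedBall (0 : EuclideanSpace ℝ (Fin 1)) 1) = 2 / 3 := by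
  let e := Complex.orthonormalBasisOneI.repr
  apply le_antisymm
  · refine gh_le (fun x y => Rel (e.symm x.1) (y.1 0)) (2 / 3) (by norm_num) ?_ ?_ ?_
    · intro x
      have hx : ‖e.symm x.1‖ ≤ 1 := by
        rw [e.symm.norm_map]
        exact mem_closedBall_zero_iff.1 x.2
      obtain ⟨t, ht, hR⟩ := rel_left hx
      exact ⟨⟨EuclideanSpace.single 0 t, by simpa using ht⟩, by simpa using hR⟩
    · intro y
      have hy : |y.1 0| ≤ 1 := by
        rw [← norm_one_dim]
        exact mem_closedBall_zero_iff.1 y.2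
      obtain ⟨u, hu, hR⟩ := rel_right hy
      exact ⟨⟨e u, by simp [hu]⟩, by simpa using hR⟩
    · intro x y x' y' h1 h2
      have := rel_dis h1 h2
      rw [← map_sub, e.symm.norm_map] at this
      simp only [Subtype.dist_eq, dist_eq_norm]
      rw [norm_one_dim (y.1 - y'.1), PiLp.sub_apply]
      linarith
  · by_contra hh
    push Not at hh
    obtain ⟨f, D, hD, hf⟩ := gh_fun _ hh
    classical
    let G : ℂ → ℝ := fun u => if hu : ‖u‖ ≤ 1 then (f ⟨e u, by simp [hu]⟩).1 0 else 0
    refine lower G D (by linarith) ?_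
    intro u v hu hv
    simp only [G, dif_pos hu, dif_pos hv]
    have := hf ⟨e u, by simp [hu]⟩ ⟨e v, by simp [hv]⟩
    simp only [Subtype.dist_eq, dist_eq_norm] at this
    rw [norm_one_dim, PiLp.sub_apply] at this
    rw [← e.norm_map (u - v), map_sub]
    exact this

end Pool.Agent.Results.MP_fcccf2_gt.DiscSegment
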